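import Pool.Agent.Y522.NA.StmT

/-!
# Modification over one coordinate ball
-/

set_option autoImplicit false

open Set Filter Topology Metric Function MeasureTheory
open scoped Manifold ContDiff

noncomputable section

namespace Pool.Agent.Y672.TP

open Pool.Agent.Y522 Pool.Agent.Y522.TP

section opens

variable {n : ℕ} {X N : Type} [TopologicalSpace X] [ChartedSpace (E n) X] [TopologicalSpace N]
  [ChartedSpace (E n) N]

/-- the inclusion of an open submanifold is a local diffeomorphism -/
theorem LD_val' (U : TopologicalSpace.Opens X) (u : U) : LD n (Subtype.val : U → X) u := by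
  let e : OpenPartialHomeomorph U X := U.openPartialHomeomorphSubtypeCoe ⟨u⟩
  have hsymm : ∀ y : U, e.symm (y : X) = y := fun y => e.left_inv (mem_univ y)
  refine ⟨{ toPartialEquiv := e.toPartialEquiv
            open_source := e.open_source
            open_target := e.open_target
            contMDiffOn_toFun := contMDiff_subtype_val.contMDiffOn
            contMDiffOn_invFun := ?_ }, mem_univ u, fun _ _ => rfl⟩
  intro x hx
  have hxU : x ∈ U := by
    have h1 : e.target = (U : Set X) := TopologicalSpace.Opens.openPartialHomeomorphSubtypeCoe_target _ _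
    have h2 : x ∈ e.target := hx
    rw [h1] at h2
    exact h2
  have key : ContMDiffAt (𝓡 n) (𝓡 n) ∞ (e.symm : X → U) (⟨x, hxU⟩ : U).val := by
    rw [← contMDiffAt_subtype_iff]
    exact contMDiffAt_id.congr_of_eventuallyEq (Eventually.of_forall fun y => hsymm y)
  exact key.contMDiffWithinAt

/-- a map which is a local diffeomorphism on an open submanifold -/
theorem LD_of_opens (U : TopologicalSpace.Opens X) (h : U → N) (h' : X → N)
    (hh : ∀ u : U, h' (u : X) = h u) (u : U) (hu : LD n h u) : LD n h' (u : X) := by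
  obtain ⟨p, hp1, hp2, _, hp4⟩ := (LD_val' (n := n) U u).exists_inverse
  have h1 : LD n (fun z => h (p z)) (u : X) := by
    refine LD.comp_fun ?_ hp1
    have : p ((u : U) : X) = u := hp2
    rw [this]
    exact hu
  refine h1.congr ?_
  filter_upwards [hp4] with z hz
  have := hh (p z)
  rw [hz] at this
  exact this

theorem LD_restrict (U : TopologicalSpace.Opens X) (h : X → N) (u : U) (hu : LD n h (u : X)) :
    LD n (fun v : U => h (v : X)) u :=
  LD.comp_fun hu (LD_val' U u)

end opens

/-- sets of zero length have thin projections -/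
theorem thin_of_zero {n : ℕ} (K : Set (E n)) (hK : μH[1] K = 0) (i : Fin n) (R : ℝ) :
    interior ((fun y : E n => y i) '' (K ∩ closedBall 0 R)) = ∅ := by
  have hL : LipschitzWith 1 (fun y : E n => y i) := by
    refine LipschitzWith.of_dist_le_mul fun x y => ?_
    rw [NNReal.coe_one, one_mul, Real.dist_eq, dist_eq_norm]
    have := PiLp.norm_apply_le (x - y) i
    rwa [Real.norm_eq_abs] at this
  have h1 : μH[1] ((fun y : E n => y i) '' (K ∩ closedBall 0 R)) = 0 := by
    have h2 := hL.hausdorffMeasure_image_le (d := 1) zero_le_one (K ∩ closedBall 0 R)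
    have h3 : μH[1] (K ∩ closedBall 0 R) = 0 := measure_mono_null inter_subset_left hK
    rw [h3, mul_zero] at h2
    exact nonpos_iff_eq_zero.1 h2
  rw [hausdorffMeasure_real] at h1
  by_contra hne
  obtain ⟨x, hx⟩ := nonempty_iff_ne_empty.2 hne
  have h4 : 0 < volume (interior ((fun y : E n => y i) '' (K ∩ closedBall 0 R))) :=
    isOpen_interior.measure_pos volume ⟨x, hx⟩
  have h5 := measure_mono_null interior_subset h1
  exact h4.ne' h5

/-- off a set of zero length there are points in every ball -/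
theorem exists_off {m : ℕ} (K : Set (E (m + 1))) (hK : μH[1] K = 0) (p : E (m + 1)) {A : ℝ}
    (hA : 0 < A) : ∃ x, x ∉ K ∧ ‖x - p‖ < A := by
  by_contra hcon
  push Not at hcon
  have hsub : ball p A ⊆ K := by
    intro x hx
    by_contra h
    have := hcon x h
    rw [mem_ball, dist_eq_norm] at hx
    linarith
  have h1 := thin_of_zero (ball p A) (measure_mono_null hsub hK) 0 (‖p‖ + A)
  have h2 : (fun t : ℝ => t) '' (Ioo (p 0 - A) (p 0 + A)) ⊆
      (fun y : E (m + 1) => y 0) '' (ball p A ∩ closedBall 0 (‖p‖ + A)) := by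
    rintro _ ⟨t, ht, rfl⟩
    refine ⟨p + (t - p 0) • e0, ⟨?_, ?_⟩, ?_⟩
    · rw [mem_ball, dist_eq_norm, add_sub_cancel_left, norm_smul, Real.norm_eq_abs]
      have he : ‖(e0 : E (m + 1))‖ = 1 := by
        have := norm_cn_sq (m := m) 1 0
        rw [norm_zero] at this
        have h3 : ‖(e0 : E (m + 1))‖ ^ 2 = 1 := by
          unfold e0
          rw [this]
          norm_num
        have h4 := norm_nonneg (e0 : E (m + 1))
        nlinarith
      rw [he, mul_one, abs_lt]
      constructor
      · linarith [ht.1]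
      · linarith [ht.2]
    · rw [mem_closedBall, dist_zero_right]
      have he : ‖(e0 : E (m + 1))‖ = 1 := by
        have := norm_cn_sq (m := m) 1 0
        rw [norm_zero] at this
        have h3 : ‖(e0 : E (m + 1))‖ ^ 2 = 1 := by
          unfold e0
          rw [this]
          norm_num
        have h4 := norm_nonneg (e0 : E (m + 1))
        nlinarith
      refine (norm_add_le _ _).trans ?_
      rw [norm_smul, Real.norm_eq_abs, he, mul_one]
      have : |t - p 0| ≤ A := by
        rw [abs_le]
        constructor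
        · linarith [ht.1]
        · linarith [ht.2]
      linarith
    · simp [e0]
  have h3 : p 0 ∈ interior ((fun y : E (m + 1) => y 0) '' (ball p A ∩ closedBall 0 (‖p‖ + A))) := by
    rw [mem_interior]
    refine ⟨Ioo (p 0 - A) (p 0 + A), ?_, isOpen_Ioo, ⟨by linarith, by linarith⟩⟩
    rw [image_id'] at h2
    exact h2
  rw [h1] at h3
  exact h3

theorem sb (hP : StPunc) : StSB := by
  classical
  intro m X Y _ _ _ _ _ _ _ _ _ f S hTM c hci hcd hKc hK0 p
  -- the open embedding
  have hcc : Continuous c := continuous_iff_continuousAt.2 fun z => (hcd z).continuousAt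
  have hco : IsOpen (range c) := by
    rw [← image_univ]
    exact isOpen_image_of_LD isOpen_univ fun x _ => hcd x
  obtain ⟨K, hKdef⟩ : ∃ K : Set (E (m + 1)), K = c ⁻¹' S := ⟨_, rfl⟩
  rw [← hKdef] at hKc hK0
  have hKmem : ∀ z, z ∈ K ↔ c z ∈ S := fun z => by rw [hKdef]; rfl
  obtain ⟨ci, hci'⟩ : ∃ ci : Y → E (m + 1), ∀ z, ci (c z) = z :=
    ⟨Function.invFun c, Function.leftInverse_invFun hci⟩
  have hcid : ∀ z, LD (m + 1) ci (c z) := fun z =>
    LD.inverse isOpen_univ (fun x _ => hcd x) (fun x _ => hci' x) (mem_univ z)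
  obtain ⟨U, hU⟩ : ∃ U : TopologicalSpace.Opens X, ∀ x, x ∈ U ↔ f x ∈ range c :=
    ⟨⟨f ⁻¹' range c, hco.preimage hTM.cont⟩, fun x => Iff.rfl⟩
  obtain ⟨F, hFdef⟩ : ∃ F : U → E (m + 1), ∀ u, F u = ci (f (u : X)) := ⟨fun u => ci (f (u : X)), fun _ => rfl⟩
  have hcF : ∀ u : U, c (F u) = f (u : X) := by
    intro u
    obtain ⟨z, hz⟩ := (hU u).1 u.2
    rw [hFdef, ← hz, hci']
  have hFuniq : ∀ (u : U) (z : E (m + 1)), f (u : X) = c z → F u = z := by
    intro u z h
    rw [hFdef, h, hci']
  have hFc : Continuous F := by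
    rw [continuous_iff_continuousAt]
    intro u
    have h1 : F = fun u : U => ci (f (u : X)) := funext hFdef
    rw [h1]
    have h2 : ContinuousAt ci (f (u : X)) := by
      rw [← hcF u]
      exact (hcid _).continuousAt
    exact ContinuousAt.comp (g := ci) (f := fun u : U => f (u : X)) h2
      (hTM.cont.comp continuous_subtype_val).continuousAt
  have hFp : IsProperMap F := by
    rw [isProperMap_iff_isCompact_preimage]
    refine ⟨hFc, fun L hL => ?_⟩
    rw [Subtype.isCompact_iff]
    have h1 : (Subtype.val '' (F ⁻¹' L) : Set X) = f ⁻¹' (c '' L) := by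
      ext x
      constructor
      · rintro ⟨u, hu, rfl⟩
        exact ⟨F u, hu, hcF u⟩
      · rintro ⟨z, hz, hzx⟩
        have hx : x ∈ U := (hU x).2 ⟨z, hzx⟩
        refine ⟨⟨x, hx⟩, ?_, rfl⟩
        rw [mem_preimage, hFuniq ⟨x, hx⟩ z hzx.symm]
        exact hz
    rw [h1]
    exact ((hL.image hcc).isClosed.preimage hTM.cont).isCompact
  have hFd : ∀ u : U, F u ∉ K → LD (m + 1) F u := by
    intro u hu
    have h1 : F = fun u : U => ci (f (u : X)) := funext hFdef
    rw [h1]
    refine LD_restrict U (fun x => ci (f x)) u ?_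
    refine LD.comp_fun ?_ (hTM.ld _ ?_)
    · rw [← hcF u]
      exact hcid _
    · rw [← hcF u]
      rwa [hKmem] at hu
  have hFbij : ∀ y, y ∉ K → ∃! u : U, F u = y := by
    intro y hy
    rw [hKmem] at hy
    obtain ⟨x, hx, hux⟩ := hTM.bij _ hy
    have hxU : x ∈ U := (hU x).2 ⟨y, hx.symm⟩
    refine ⟨⟨x, hxU⟩, hFuniq _ _ hx, ?_⟩
    intro u hu
    apply Subtype.ext
    apply hux
    rw [← hcF u, hu]
  have hthin : ThinMap (m + 1) F K := by
    refine ⟨hFp, hKc.isClosed, fun i R => thin_of_zero K hK0 i R, fun u hu => (hFd u hu).contMDiffAt,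
      hFbij, fun y => ?_⟩
    obtain ⟨V, k, hV, hyV, hki, hkd⟩ := hTM.fib (c y)
    refine ⟨Subtype.val ⁻¹' V, fun u => k (u : X), hV.preimage continuous_subtype_val, ?_, ?_, ?_⟩
    · intro u hu
      apply hyV
      rw [mem_preimage, mem_singleton_iff] at hu ⊢
      rw [← hcF u, hu]
    · intro u hu v hv huv
      exact Subtype.ext (hki hu hv huv)
    · intro u hu
      exact LD_restrict U k u (hkd _ hu)
  obtain ⟨ψ⟩ := diffeo_of_thin m U F K hthin
  have hψd : ∀ u : U, LD (m + 1) ψ u := fun u => ψ.isLocalDiffeomorph u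
  have hψc : Continuous ψ := ψ.continuous
  -- the inverse of `F`
  obtain ⟨G, hG⟩ : ∃ G : E (m + 1) → U, ∀ x, x ∉ K → F (G x) = x := by
    refine ⟨fun x => if h : ∃ u, F u = x then h.choose else ψ.symm 0, fun x hx => ?_⟩
    obtain ⟨u, hu, _⟩ := hFbij x hx
    have h : ∃ u, F u = x := ⟨u, hu⟩
    simp only [dif_pos h]
    exact h.choose_spec
  have hGF : ∀ u : U, F u ∉ K → G (F u) = u := by
    intro u hu
    exact (hFbij _ hu).unique (hG _ hu) rfl
  have hGd : ∀ x, x ∉ K → LD (m + 1) G x := by
    intro x hx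
    have h1 := LD.inverse (k := F) (g := G) (U := F ⁻¹' Kᶜ) (hKc.isClosed.isOpen_compl.preimage hFc)
      (fun u hu => hFd u hu) (fun u hu => hGF u hu) (x := G x)
      (by rw [mem_preimage, hG x hx]; exact hx)
    rwa [hG x hx] at h1
  obtain ⟨k1, hk1⟩ : ∃ k1 : E (m + 1) → E (m + 1), ∀ x, k1 x = ψ (G x) := ⟨fun x => ψ (G x), fun _ => rfl⟩
  have hk1d : ∀ x, x ∉ K → LD (m + 1) k1 x := by
    intro x hx
    have : k1 = fun x => ψ (G x) := funext hk1
    rw [this]
    exact LD.comp_fun (hψd _) (hGd x hx)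
  have hk1i : ∀ x y, x ∉ K → y ∉ K → k1 x = k1 y → x = y := by
    intro x y hx hy h
    rw [hk1, hk1] at h
    have := ψ.injective h
    rw [← hG x hx, ← hG y hy, this]
  obtain ⟨A, hA0, hA⟩ : ∃ A : ℝ, 0 < A ∧ ∀ x, x ∈ K → ‖x - p‖ < A := by
    obtain ⟨A, hA⟩ := hKc.isBounded.subset_ball p
    refine ⟨max A 1, by positivity, fun x hx => ?_⟩
    have := hA hx
    rw [mem_ball, dist_eq_norm] at this
    exact this.trans_le (le_max_left _ _)
  have hAn : ∀ x, A ≤ ‖x‖ → p + x ∉ K := by
    intro x hx hxK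
    have := hA _ hxK
    rw [add_sub_cancel_left] at this
    linarith
  obtain ⟨x1, hx1K, hx1A⟩ := exists_off K hK0 p hA0
  obtain ⟨s, hs⟩ : ∃ s, s = k1 x1 := ⟨_, rfl⟩
  obtain ⟨ε, hε0, hε⟩ : ∃ ε : ℝ, 0 < ε ∧ ∀ x, A ≤ ‖x‖ → ε ≤ ‖k1 (p + x) - s‖ := by
    have hW : (Kᶜ ∩ ball p A : Set (E (m + 1))) ∈ 𝓝 x1 :=
      (hKc.isClosed.isOpen_compl.inter isOpen_ball).mem_nhds
        ⟨hx1K, by rw [mem_ball, dist_eq_norm]; exact hx1A⟩
    have h1 := (hk1d x1 hx1K).image_mem_nhds hW
    rw [← hs] at h1
    obtain ⟨ε, hε, hεW⟩ := Metric.mem_nhds_iff.1 h1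
    refine ⟨ε, hε, fun x hx => ?_⟩
    by_contra hcon
    push Not at hcon
    have h2 : k1 (p + x) ∈ ball s ε := by rw [mem_ball, dist_eq_norm]; exact hcon
    obtain ⟨w, ⟨hw1, hw2⟩, hw3⟩ := hεW h2
    have h3 := hk1i _ _ hw1 (hAn x hx) hw3
    rw [mem_ball, dist_eq_norm, h3, add_sub_cancel_left] at hw2
    linarith
  obtain ⟨b0, hb0⟩ : ∃ b0 : ℝ, ∀ u : U, ‖F u - p‖ ≤ A → ‖ψ u‖ ≤ b0 := by
    have h1 : IsCompact (F ⁻¹' closedBall p A) := hFp.isCompact_preimage (isCompact_closedBall _ _)
    obtain ⟨b0, hb0⟩ := (h1.image hψc).isBounded.exists_norm_le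
    refine ⟨b0, fun u hu => hb0 _ ⟨u, ?_, rfl⟩⟩
    rw [mem_preimage, mem_closedBall, dist_eq_norm]
    exact hu
  obtain ⟨g, a', hg0, hgd, haa', hgk⟩ := hP (m + 1) (fun x => k1 (p + x) - s) A ε (b0 + ‖s‖ + 1) hA0 hε0
    (by
      intro x hx
      have h1 : LD (m + 1) (fun y : E (m + 1) => k1 (p + y)) x := by
        refine LD.comp_fun (g := k1) (hk1d _ (hAn x hx)) ?_
        have := LD_add_const p x
        refine this.congr (Eventually.of_forall fun y => ?_)
        exact add_comm _ _
      have h2 := LD.comp_fun (g := fun y : E (m + 1) => y + (-s)) (LD_add_const (-s) _) h1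
      refine h2.congr (Eventually.of_forall fun y => ?_)
      exact sub_eq_add_neg _ _)
    (by
      intro x hx y hy hxy
      have h1 : k1 (p + x) = k1 (p + y) := by
        have := congrArg (fun w => w + s) hxy
        simpa using this
      have := hk1i _ _ (hAn x hx) (hAn y hy) h1
      exact add_left_cancel this)
    (by
      intro R
      have h1 : IsCompact (F '' (ψ ⁻¹' closedBall 0 (R + ‖s‖))) := by
        refine IsCompact.image ?_ hFc
        exact ψ.toHomeomorph.isCompact_preimage.2 (isCompact_closedBall _ _)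
      obtain ⟨r0, hr0⟩ := h1.isBounded.exists_norm_le
      refine ⟨r0 + ‖p‖ + 1 + A, fun x hx => ?_⟩
      by_contra hcon
      push Not at hcon
      by_cases hxA : A ≤ ‖x‖
      · have h2 : G (p + x) ∈ ψ ⁻¹' closedBall 0 (R + ‖s‖) := by
          rw [mem_preimage, mem_closedBall, dist_zero_right, ← hk1]
          have : k1 (p + x) = (k1 (p + x) - s) + s := by abel
          rw [this]
          exact (norm_add_le _ _).trans (by linarith)
        have h3 := hr0 _ ⟨_, h2, rfl⟩
        rw [hG _ (hAn x hxA)] at h3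
        have h4 : ‖x‖ ≤ ‖p + x‖ + ‖p‖ := by
          have : x = (p + x) - p := by abel
          calc ‖x‖ = ‖(p + x) - p‖ := by rw [← this]
            _ ≤ _ := norm_sub_le _ _
        linarith
      · have h5 : 0 ≤ r0 := by
          have : (F (ψ.symm 0)) ∈ F '' (ψ ⁻¹' closedBall 0 (R + ‖s‖)) ∨ R + ‖s‖ < 0 := by
            by_cases h6 : 0 ≤ R + ‖s‖
            · left
              refine ⟨_, ?_, rfl⟩
              rw [mem_preimage, ψ.apply_symm_apply, mem_closedBall, dist_self]
              exact h6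
            · right
              exact not_le.1 h6
          rcases this with h6 | h6
          · exact (norm_nonneg _).trans (hr0 _ h6)
          · exfalso
            have h7 : 0 ≤ ‖k1 (p + x) - s‖ := norm_nonneg _
            have h8 : 0 ≤ ‖s‖ := norm_nonneg _
            linarith
        have := norm_nonneg p
        linarith [not_le.1 hxA])
    (by
      intro x hx
      exact hε x hx)
    (by
      intro y hy
      obtain ⟨u, hu⟩ : ∃ u : U, ψ u = y + s := ψ.surjective _
      have h1 : A < ‖F u - p‖ := by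
        by_contra hcon
        have h2 := hb0 u (not_lt.1 hcon)
        rw [hu] at h2
        have h3 : ‖y‖ ≤ ‖y + s‖ + ‖s‖ := by
          have : y = (y + s) - s := by abel
          calc ‖y‖ = ‖(y + s) - s‖ := by rw [← this]
            _ ≤ _ := norm_sub_le _ _
        linarith
      have h4 : F u ∉ K := by
        intro h
        have := hA _ h
        linarith
      refine ⟨F u - p, h1.le, ?_⟩
      simp only [add_sub_cancel]
      rw [hk1, hGF u h4, hu]
      abel)
  -- the homeomorphism with the base point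
  obtain ⟨gg, hgg⟩ : ∃ gg : E (m + 1) ≃ₜ E (m + 1), ∀ x, gg x = g (x - p) + s :=
    ⟨((Homeomorph.subRight p).trans g).trans (Homeomorph.addRight s), fun _ => rfl⟩
  have hggp : gg p = s := by rw [hgg, sub_self, hg0, zero_add]
  have hggd : ∀ x, x ≠ p → LD (m + 1) gg x := by
    intro x hx
    have h1 : LD (m + 1) (fun y : E (m + 1) => y - p) x := by
      refine (LD_add_const (-p) x).congr (Eventually.of_forall fun y => ?_)
      exact sub_eq_add_neg _ _
    have h2 : LD (m + 1) (fun y : E (m + 1) => g (y - p)) x :=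
      LD.comp_fun (g := g) (hgd _ (sub_ne_zero.2 hx)) h1
    have h3 := LD.comp_fun (g := fun y : E (m + 1) => y + s) (LD_add_const s _) h2
    exact h3.congr (Eventually.of_forall fun y => hgg y)
  have hggF : ∀ u : U, a' ≤ ‖F u - p‖ → gg.symm (ψ u) = F u := by
    intro u hu
    rw [Homeomorph.symm_apply_eq, hgg, hgk _ hu]
    have h4 : F u ∉ K := by
      intro h
      have := hA _ h
      linarith
    simp only [add_sub_cancel]
    rw [hk1, hGF u h4]
    abel
  obtain ⟨f', hf'U, hf'n⟩ : ∃ f' : X → Y, (∀ u : U, f' (u : X) = c (gg.symm (ψ u))) ∧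
      ∀ x, x ∉ U → f' x = f x := by
    refine ⟨fun x => if h : x ∈ U then c (gg.symm (ψ ⟨x, h⟩)) else f x, fun u => ?_, fun x hx => ?_⟩
    · simp only [dif_pos u.2]
    · simp only [dif_neg hx]
  have hf'r : ∀ x, f' x ∈ range c ↔ x ∈ U := by
    intro x
    constructor
    · intro h
      by_contra hx
      rw [hf'n x hx] at h
      exact hx ((hU x).2 h)
    · intro hx
      rw [hf'U ⟨x, hx⟩]
      exact mem_range_self _
  -- far from the centre nothing changes
  obtain ⟨V, hVo, hVf, hUV⟩ : ∃ V : Set X, IsOpen V ∧ (∀ x ∈ V, f' x = f x) ∧ ∀ x, x ∉ U → x ∈ V := by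
    refine ⟨(f ⁻¹' (c '' closedBall p a'))ᶜ, ?_, ?_, ?_⟩
    · exact (((isCompact_closedBall _ _).image hcc).isClosed.preimage hTM.cont).isOpen_compl
    · intro x hx
      by_cases hxU : x ∈ U
      · rw [hf'U ⟨x, hxU⟩, hggF, hcF]
        by_contra hcon
        apply hx
        refine ⟨F ⟨x, hxU⟩, ?_, hcF _⟩
        rw [mem_closedBall, dist_eq_norm]
        exact (not_le.1 hcon).le
      · exact hf'n x hxU
    · rintro x hx ⟨z, _, hz⟩
      exact hx ((hU x).2 ⟨z, hz⟩)
  have hloc : ∀ x, x ∉ U → f' =ᶠ[𝓝 x] f := by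
    intro x hx
    filter_upwards [hVo.mem_nhds (hUV x hx)] with y hy using hVf y hy
  have hcont : Continuous f' := by
    rw [continuous_iff_continuousAt]
    intro x
    by_cases hx : x ∈ U
    · have h1 : Continuous (fun u : U => f' (u : X)) := by
        have : (fun u : U => f' (u : X)) = fun u : U => c (gg.symm (ψ u)) := funext hf'U
        rw [this]
        exact hcc.comp (gg.symm.continuous.comp hψc)
      have h2 : ContinuousOn f' (U : Set X) := continuousOn_iff_continuous_domRestrict.2 h1
      exact h2.continuousAt (U.2.mem_nhds hx)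
    · exact (hTM.cont.continuousAt (x := x)).congr (hloc x hx).symm
  have hexu : ∀ z, ∃! x, f' x = c z := by
    intro z
    refine ⟨(ψ.symm (gg z) : U), ?_, ?_⟩
    · simp only
      rw [hf'U, ψ.apply_symm_apply, Homeomorph.symm_apply_apply]
    · intro x hx
      have hxU : x ∈ U := (hf'r x).1 ⟨z, hx.symm⟩
      have h1 := hf'U ⟨x, hxU⟩
      simp only at h1
      rw [hx] at h1
      have h2 := hci h1
      have h3 : ψ ⟨x, hxU⟩ = gg z := by
        rw [h2, Homeomorph.apply_symm_apply]
      rw [← h3, ψ.symm_apply_apply]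
  refine ⟨f', ⟨hcont, ?_, ?_, ?_, ?_⟩, hexu p⟩
  · have h1 : S \ range c = S ∩ (range c)ᶜ := rfl
    rw [h1]
    exact (hTM.closed.inter hco.isClosed_compl).union isClosed_singleton
  · intro y hy
    by_cases hyc : y ∈ range c
    · obtain ⟨z, rfl⟩ := hyc
      exact hexu z
    · have hyS : y ∉ S := fun h => hy (Or.inl ⟨h, hyc⟩)
      obtain ⟨x, hx, hux⟩ := hTM.bij y hyS
      have hxU : x ∉ U := fun h => hyc (by rw [← hx]; exact (hU x).1 h)
      refine ⟨x, by simp only; rw [hf'n x hxU, hx], ?_⟩
      intro x' hx'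
      have hxU' : x' ∉ U := fun h => hyc (by rw [← hx']; exact (hf'r x').2 h)
      apply hux
      rw [← hf'n x' hxU', hx']
  · intro x hx
    by_cases hxU : x ∈ U
    · have h1 := hf'U ⟨x, hxU⟩
      simp only at h1
      have h2 : gg.symm (ψ ⟨x, hxU⟩) ≠ p := by
        intro h
        apply hx
        right
        rw [h1, h]
        exact mem_singleton _
      refine LD_of_opens U (fun u => c (gg.symm (ψ u))) f' hf'U ⟨x, hxU⟩ ?_
      refine LD.comp_fun (g := c) (hcd _) ?_
      refine LD.comp_fun (g := gg.symm) ?_ (hψd _)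
      have h3 := LD.inverse (k := gg) (g := gg.symm) (U := ({p} : Set (E (m + 1)))ᶜ)
        isOpen_compl_singleton (fun y hy => hggd y hy) (fun y _ => gg.symm_apply_apply y)
        (x := gg.symm (ψ ⟨x, hxU⟩)) h2
      rwa [Homeomorph.apply_symm_apply] at h3
    · have h1 : f x ∉ S := by
        intro h
        apply hx
        left
        rw [hf'n x hxU]
        exact ⟨h, fun hr => hxU ((hU x).2 hr)⟩
      exact (hTM.ld x h1).congr (hloc x hxU)
  · intro y
    by_cases hyc : y ∈ range c
    · refine ⟨(U : Set X), fun x => if h : x ∈ U then ψ ⟨x, h⟩ else 0, U.2, ?_, ?_, ?_⟩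
      · intro x hx
        rw [mem_preimage, mem_singleton_iff] at hx
        exact (hf'r x).1 (by rw [hx]; exact hyc)
      · intro x hx x' hx' hxx
        have hx1 : x ∈ U := hx
        have hx2 : x' ∈ U := hx'
        simp only [dif_pos hx1, dif_pos hx2] at hxx
        have := ψ.injective hxx
        exact congrArg Subtype.val this
      · intro x hx
        have hx1 : x ∈ U := hx
        refine LD_of_opens U (fun u => ψ u) _ (fun u => ?_) ⟨x, hx1⟩ (hψd _)
        simp only [dif_pos u.2]
    · obtain ⟨W, k, hW, hyW, hki, hkd⟩ := hTM.fib y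
      refine ⟨W, k, hW, ?_, hki, hkd⟩
      intro x hx
      apply hyW
      rw [mem_preimage, mem_singleton_iff] at hx ⊢
      have hxU : x ∉ U := fun h => hyc (by rw [← hx]; exact (hf'r x).2 h)
      rw [← hf'n x hxU, hx]

end Pool.Agent.Y672.TP
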